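import Mathlib
import Pool.Agent.Helper470.ED.Mlowers
import Pool.Agent.Helper470.ED.Mlower6
import Pool.Agent.Helper470.ED.Msecond2
import Pool.Agent.Helper470.ED.Msecond3
import Pool.Agent.Helper470.ED.Mupper
import Pool.Agent.Helper470.ED.Mclean
import Pool.Agent.Helper470.ED.Msharp
import Pool.Agent.Helper470.ED.Mwindow
import Pool.Agent.Helper470.ED.Mupx
import Pool.Agent.Helper470.ED.Mxm
import Pool.Agent.Helper470.ED.Mdense_up
import Pool.Agent.Helper470.ED.Mdense_low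
import Pool.Agent.Helper470.ED.Meup
import Pool.Agent.Helper470.ED.Melow
import Pool.Agent.Helper470.ED.MupX3
import Pool.Agent.Helper470.ED.Msharp3
import Pool.Agent.Helper470.ED.Msecond2eps
import Pool.Agent.Helper470.ED.Mlow3

set_option autoImplicit false

namespace Pool.Agent.Results.MP_8264c5_co.AllK

/-- `G` contains `k` pairwise edge-disjoint cycles. -/
def HasEDC {V : Type} (G : SimpleGraph V) (k : ℕ) : Prop :=
  ∃ (v : Fin k → V) (c : ∀ i, G.Walk (v i) (v i)),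
    (∀ i, (c i).IsCycle) ∧ ∀ i j, i ≠ j → ∀ e ∈ (c i).edges, e ∉ (c j).edges

/-- `ex' n k`: the maximum number of edges of an `n`-vertex graph without `k` pairwise
edge-disjoint cycles (for `k ≥ 1`; part (0) of the theorem says that it is a maximum). -/
noncomputable def ex' (n k : ℕ) : ℕ :=
  sSup {m : ℕ | ∃ G : SimpleGraph (Fin n), ¬ HasEDC G k ∧ G.edgeSet.ncard = m}

/-- all cycles of `G` have length at least `g` -/
def GirthGe {V : Type} (G : SimpleGraph V) (g : ℕ) : Prop :=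
  ∀ (v : V) (c : G.Walk v v), c.IsCycle → g ≤ c.length

/-- `X g n`: the maximum number of edges of an `n`-vertex graph without cycles of length `≤ g`
(i.e. `ex(n, {C_3, ..., C_g})`). -/
noncomputable def X (g n : ℕ) : ℕ :=
  sSup {m : ℕ | ∃ G : SimpleGraph (Fin n), GirthGe G (g + 1) ∧ G.edgeSet.ncard = m}

theorem result :
    -- (0) `ex'` and `X` are maxima
    ((∀ n k : ℕ, 1 ≤ k →
        IsGreatest {m : ℕ | ∃ G : SimpleGraph (Fin n), ¬ HasEDC G k ∧ G.edgeSet.ncard = m} (ex' n k)) ∧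
      ∀ g n : ℕ,
        IsGreatest {m : ℕ | ∃ G : SimpleGraph (Fin n), GirthGe G (g + 1) ∧ G.edgeSet.ncard = m} (X g n)) ∧
    -- (1) order of magnitude of `ex'(n,k) - n` for all `k`
    (∃ c C : ℝ, 0 < c ∧ 0 < C ∧ ∀ n k : ℕ, 6 ≤ n → 2 ≤ k → k ≤ n ^ 2 →
      (n : ℝ) + c * (k * Real.log k / Real.log (2 + k * Real.log k / n)) ≤ ex' n k ∧
      (ex' n k : ℝ) ≤ n + C * (k * Real.log k / Real.log (2 + k * Real.log k / n))) ∧
    -- (2) two-term formula between consecutive even girth numbers, every `l ≥ 2`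
    (∀ l n k : ℕ, 2 ≤ l → 1 ≤ k → X (2 * l) n ≤ k → 100 * l * k ≤ X (2 * l - 2) n →
      2 * (l : ℝ) * k + (X (2 * l) n : ℝ) / (30 * l) ≤ ex' n k ∧
      (ex' n k : ℝ) ≤ 2 * l * k + X (2 * l) n) ∧
    -- (3) sharper second term
    (∀ ε : ℝ, 0 < ε → ∃ δ : ℝ, 0 < δ ∧ ∀ l n k : ℕ, 2 ≤ l → 1 ≤ k → X (2 * l) n ≤ k →
      (l : ℝ) * k ≤ δ * X (2 * l - 2) n →
      2 * (l : ℝ) * k + (1 - ε) * max ((X (2 * l + 1) n : ℝ) / (l + 1)) ((X (2 * l) n : ℝ) / (2 * l + 1)) ≤ ex' n k ∧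
      (ex' n k : ℝ) ≤ 2 * l * k + ((X (2 * l) n : ℝ) + l * X (2 * l + 2) n) / (l + 1) ∧
      (ex' n k : ℝ) ≤ 2 * l * k + (X (2 * l) n : ℝ) / (2 * l + 1) +
        l * (X (2 * l + 1) n : ℝ) / ((2 * l + 1) * (l + 1)) + l * (X (2 * l + 2) n : ℝ) / (l + 1) + 2 * l) ∧
    -- (4) first-order asymptotics also in the windows around `k ~ X (2l) n`
    (∀ l : ℕ, 2 ≤ l → ∀ ε : ℝ, 0 < ε → ∃ C : ℝ, 0 < C ∧ ∀ n k : ℕ, 1 ≤ k →
      C * (X (2 * l + 2) n : ℝ) ≤ k → C * (k : ℝ) ≤ X (2 * l - 2) n →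
      (1 - ε) * min ((2 * l + 2) * (k : ℝ)) (2 * l * k + (X (2 * l + 1) n : ℝ) / (l + 1)) ≤ ex' n k ∧
      (ex' n k : ℝ) ≤ (1 + ε) * min ((2 * l + 2) * (k : ℝ)) (2 * l * k + (X (2 * l) n : ℝ) / (l + 1))) ∧
    -- (5) explicit upper bound, and explicit two-term formulas
    (∀ l n k : ℕ, 1 ≤ l → 1 ≤ k → (ex' n k : ℝ) ≤ 2 * l * k + 2 * (n : ℝ) ^ (1 + 1 / (l : ℝ))) ∧
    (∃ c : ℝ, 0 < c ∧ ∀ n k : ℕ, 1 ≤ k →
      ((n : ℝ) ^ ((3 : ℝ) / 2) ≤ k → (k : ℝ) ≤ c * (n : ℝ) ^ 2 →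
        4 * (k : ℝ) + c * (n : ℝ) ^ ((3 : ℝ) / 2) ≤ ex' n k ∧
        (ex' n k : ℝ) ≤ 4 * k + 2 * (n : ℝ) ^ ((3 : ℝ) / 2)) ∧
      ((n : ℝ) ^ ((4 : ℝ) / 3) ≤ k → (k : ℝ) ≤ c * (n : ℝ) ^ ((3 : ℝ) / 2) →
        6 * (k : ℝ) + c * (n : ℝ) ^ ((4 : ℝ) / 3) ≤ ex' n k ∧
        (ex' n k : ℝ) ≤ 6 * k + 2 * (n : ℝ) ^ ((4 : ℝ) / 3)) ∧
      ((k : ℝ) ≤ c * (n : ℝ) ^ ((4 : ℝ) / 3) →
        8 * (k : ℝ) - 1 ≤ ex' n k ∧ (ex' n k : ℝ) ≤ 8 * k + 2 * (n : ℝ) ^ ((5 : ℝ) / 4)) ∧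
      ((k : ℝ) ≤ c * (n : ℝ) ^ ((6 : ℝ) / 5) →
        12 * (k : ℝ) - 1 ≤ ex' n k ∧ (ex' n k : ℝ) ≤ 12 * k + 2 * (n : ℝ) ^ ((7 : ℝ) / 6))) ∧
    (∀ ε : ℝ, 0 < ε → ∃ c : ℝ, 0 < c ∧ ∃ n0 : ℕ, ∀ n k : ℕ, n0 ≤ n → 1 ≤ k →
      (n : ℝ) ^ ((3 : ℝ) / 2) ≤ k → (k : ℝ) ≤ (1 / 16 - ε) * (n : ℝ) ^ 2 →
        4 * (k : ℝ) + c * (n : ℝ) ^ ((3 : ℝ) / 2) ≤ ex' n k) ∧
    -- (6) the dense range
    (∀ n k : ℕ, 1 ≤ k →
      (16 * k ≤ n ^ 2 → 4 * (k : ℝ) - 1 ≤ ex' n k) ∧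
      (6 * k ≤ n * (n - 1) → 3 * (k : ℝ) - 1 ≤ ex' n k) ∧
      (4 ≤ n → n ^ 2 ≤ 16 * k → 6 * k ≤ n * (n - 1) → 2 * (k : ℝ) + (n : ℝ) ^ 2 / 8 - 2 ≤ ex' n k) ∧
      (ex' n k : ℝ) ≤ 8 / 3 * k + (n : ℝ) ^ 2 / 12 + 4 / 3 * (n : ℝ) ^ ((3 : ℝ) / 2)) := by
  have ee : ∀ n k, ex' n k = ED.exd n k := fun _ _ => rfl
  have eX : ∀ g n, X g n = ED.X g n := fun _ _ => rfl
  refine ⟨⟨?_, ?_⟩, ?_, ?_, ?_, ?_, ?_, ?_, ?_, ?_⟩
  · intro n k hk
    have hb : BddAbove {m : ℕ | ∃ G : SimpleGraph (Fin n), ¬ HasEDC G k ∧ G.edgeSet.ncard = m} := by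
      refine ⟨Nat.card (Sym2 (Fin n)), ?_⟩
      rintro m ⟨G, _, rfl⟩
      exact (Set.ncard_le_ncard (Set.subset_univ _) Set.finite_univ).trans (by rw [Set.ncard_univ])
    refine ⟨?_, fun m hm => le_csSup hb hm⟩
    refine Nat.sSup_mem ⟨_, ⊥, ?_, rfl⟩ hb
    rintro ⟨v, c, hc, _⟩
    have := (hc ⟨0, hk⟩).three_le_length
    cases h : c ⟨0, hk⟩ with
    | nil => rw [h] at this; simp at this
    | cons h' p => exact absurd h' (by simp)
  · intro g n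
    refine ⟨ED.X_max g n, ?_⟩
    rintro m ⟨G, hG, rfl⟩
    exact ED.X_le g n G hG
  · obtain ⟨c, hc, h1⟩ := ED.excess_lower
    obtain ⟨C, hC, h2⟩ := ED.excess_upper
    exact ⟨c, C, hc, hC, fun n k hn hk hkn => ⟨h1 n k hn hk hkn, h2 n k hn hk hkn⟩⟩
  · intro l n k hl hk h1 h2
    refine ⟨ED.clean l n k hl hk h1 h2, ?_⟩
    have := ED.upX1 (2 * l) n k (by omega) hk
    have h3 : ex' n k ≤ 2 * l * k + X (2 * l) n := by
      rw [ee, eX]; omega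
    calc (ex' n k : ℝ) ≤ ((2 * l * k + X (2 * l) n : ℕ) : ℝ) := by exact_mod_cast h3
      _ = _ := by push_cast; ring
  · intro ε hε
    obtain ⟨δ, hδ, h⟩ := ED.sharp ε hε
    obtain ⟨δ', hδ', h'⟩ := ED.sharp3 ε hε
    refine ⟨min δ δ', lt_min hδ hδ', fun l n k hl hk h1 h2 => ⟨?_, ?_, ?_⟩⟩
    · have a1 := h l n k hl hk h1 (h2.trans (mul_le_mul_of_nonneg_right (min_le_left _ _) (by positivity)))
      have a2 := h' l n k hl hk h1 (h2.trans (mul_le_mul_of_nonneg_right (min_le_right _ _) (by positivity)))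
      rw [ee]
      rw [mul_div_assoc] at a1 a2
      rcases max_cases ((X (2 * l + 1) n : ℝ) / (l + 1)) ((X (2 * l) n : ℝ) / (2 * l + 1)) with ⟨e, _⟩ | ⟨e, _⟩
      · rw [e]; exact a1
      · rw [e]; exact a2
    swap
    · have h3 := ED.upX3 (2 * l) (2 * l + 1) (2 * l + 2) n k (by omega) (by omega) (by omega) hk (by
        have h1' : ED.X (2 * l) n ≤ k := h1
        have e1 : (2 * l + 1) * ED.X (2 * l + 1) n ≤ (2 * l + 2) * ED.X (2 * l + 1) n :=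
          Nat.mul_le_mul_right _ (by omega)
        have e2 : (2 * l + 2) * ED.X (2 * l) n ≤ (2 * l + 1) * (2 * l + 2) * k := by
          calc (2 * l + 2) * ED.X (2 * l) n ≤ (2 * l + 2) * k := Nat.mul_le_mul_left _ h1'
            _ ≤ (2 * l + 1) * ((2 * l + 2) * k) := Nat.le_mul_of_pos_left _ (by omega)
            _ = _ := by ring
        omega)
      have e1 : 2 * l + 1 - 2 * l = 1 := by omega
      have e2 : 2 * l + 2 - (2 * l + 1) = 1 := by omega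
      rw [e1, e2] at h3
      have h4 : ((2 * l : ℝ) + 1) * (2 * l + 2) * (ex' n k : ℝ) ≤
          2 * l * (2 * l + 1) * (2 * l + 2) * k + 1 * (2 * l + 2) * X (2 * l) n +
          2 * l * 1 * X (2 * l + 1) n + 2 * l * (2 * l + 1) * X (2 * l + 2) n +
          2 * l * (2 * l + 1) * (2 * l + 2) := by
        exact_mod_cast h3
      have hl0 : (0 : ℝ) < (l : ℝ) + 1 := by positivity
      have hl1 : (0 : ℝ) < 2 * (l : ℝ) + 1 := by positivity
      rw [← sub_nonneg]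
      have : 2 * (l : ℝ) * k + (X (2 * l) n : ℝ) / (2 * l + 1) +
          l * (X (2 * l + 1) n : ℝ) / ((2 * l + 1) * (l + 1)) + l * (X (2 * l + 2) n : ℝ) / (l + 1) + 2 * l -
          (ex' n k : ℝ) =
          (2 * l * (2 * l + 1) * (2 * l + 2) * k + 1 * (2 * l + 2) * X (2 * l) n +
          2 * l * 1 * X (2 * l + 1) n + 2 * l * (2 * l + 1) * X (2 * l + 2) n +
          2 * l * (2 * l + 1) * (2 * l + 2) - ((2 * l : ℝ) + 1) * (2 * l + 2) * (ex' n k : ℝ)) /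
          (2 * (2 * l + 1) * (l + 1)) := by
        field_simp
      rw [this]
      exact div_nonneg (by linarith) (by positivity)
    have h3 := ED.upX (2 * l) (2 * l + 2) n k (by omega) (by omega) hk
      (le_trans h1 (Nat.le_mul_of_pos_left _ (by omega)))
    have h4 : (2 * (l : ℝ) + 2) * (ex' n k : ℝ) ≤
        2 * l * (2 * l + 2) * k + 2 * X (2 * l) n + 2 * l * X (2 * l + 2) n := by
      have e : 2 * l + 2 - 2 * l = 2 := by omega
      rw [e] at h3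
      exact_mod_cast h3
    have hl0 : (0 : ℝ) < (l : ℝ) + 1 := by positivity
    rw [← sub_nonneg]
    have : 2 * (l : ℝ) * k + ((X (2 * l) n : ℝ) + l * X (2 * l + 2) n) / (l + 1) - (ex' n k : ℝ) =
        (2 * l * (2 * l + 2) * k + 2 * X (2 * l) n + 2 * l * X (2 * l + 2) n -
          (2 * (l : ℝ) + 2) * (ex' n k : ℝ)) / (2 * (l + 1)) := by
      field_simp
      ring
    rw [this]
    exact div_nonneg (by linarith) (by positivity)
  · intro l hl ε hε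
    exact ED.window l hl ε hε
  · intro l n k hl hk
    exact ED.upper l hl n k hk
  · obtain ⟨c2, h2, H2⟩ := ED.second2
    obtain ⟨c3, h3, H3⟩ := ED.second3
    obtain ⟨c4, h4, H4⟩ := ED.lower4
    obtain ⟨c6, h6, H6⟩ := ED.lower6
    refine ⟨min (min c2 c3) (min c4 c6), by positivity, fun n k hk => ?_⟩
    have hc2 : min (min c2 c3) (min c4 c6) ≤ c2 := (min_le_left _ _).trans (min_le_left _ _)
    have hc3 : min (min c2 c3) (min c4 c6) ≤ c3 := (min_le_left _ _).trans (min_le_right _ _)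
    have hc4 : min (min c2 c3) (min c4 c6) ≤ c4 := (min_le_right _ _).trans (min_le_left _ _)
    have hc6 : min (min c2 c3) (min c4 c6) ≤ c6 := (min_le_right _ _).trans (min_le_right _ _)
    generalize min (min c2 c3) (min c4 c6) = c at hc2 hc3 hc4 hc6
    have hu : ∀ l : ℕ, 1 ≤ l → (ex' n k : ℝ) ≤ 2 * l * k + 2 * (n : ℝ) ^ (1 + 1 / (l : ℝ)) :=
      fun l hl => ED.upper l hl n k hk
    have p32 : (0 : ℝ) ≤ (n : ℝ) ^ ((3 : ℝ) / 2) := by positivity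
    have p43 : (0 : ℝ) ≤ (n : ℝ) ^ ((4 : ℝ) / 3) := by positivity
    have p65 : (0 : ℝ) ≤ (n : ℝ) ^ ((6 : ℝ) / 5) := by positivity
    have p2 : (0 : ℝ) ≤ (n : ℝ) ^ 2 := by positivity
    refine ⟨fun a b => ⟨?_, ?_⟩, fun a b => ⟨?_, ?_⟩, fun a => ⟨?_, ?_⟩, fun a => ⟨?_, ?_⟩⟩
    · have := H2 n k a (b.trans (mul_le_mul_of_nonneg_right hc2 p2)) hk
      rw [ee]
      nlinarith [mul_le_mul_of_nonneg_right hc2 p32]
    · have := hu 2 (by norm_num)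
      norm_num at this
      have e : (1 : ℝ) + 1 / 2 = 3 / 2 := by norm_num
      norm_num [e] at this ⊢
      linarith
    · have := H3 n k a (b.trans (mul_le_mul_of_nonneg_right hc3 p32)) hk
      rw [ee]
      nlinarith [mul_le_mul_of_nonneg_right hc3 p43]
    · have := hu 3 (by norm_num)
      norm_num at this
      linarith
    · have := H4 n k hk (a.trans (mul_le_mul_of_nonneg_right hc4 p43))
      rw [ee]
      have h' : ((8 * k : ℕ) : ℝ) ≤ ((ED.exd n k + 1 : ℕ) : ℝ) := by exact_mod_cast this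
      push_cast at h'
      linarith
    · have := hu 4 (by norm_num)
      norm_num at this
      linarith
    · have := H6 n k hk (a.trans (mul_le_mul_of_nonneg_right hc6 p65))
      rw [ee]
      have h' : ((12 * k : ℕ) : ℝ) ≤ ((ED.exd n k + 1 : ℕ) : ℝ) := by exact_mod_cast this
      push_cast at h'
      linarith
    · have := hu 6 (by norm_num)
      norm_num at this
      linarith
  · intro ε hε
    exact ED.second2eps ε hε
  · intro n k hk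
    refine ⟨fun h => ?_, fun h => ?_, fun hn h1 h2 => ED.dense_low n k hn h1 h2, ?_⟩
    · have := ED.lower2 n k hk h
      rw [ee]
      have h' : ((4 * k : ℕ) : ℝ) ≤ ((ED.exd n k + 1 : ℕ) : ℝ) := by exact_mod_cast this
      push_cast at h'
      linarith
    · have := ED.low3 n k hk (by omega)
      rw [ee]
      have h' : ((3 * k : ℕ) : ℝ) ≤ ((ED.exd n k + 1 : ℕ) : ℝ) := by exact_mod_cast this
      push_cast at h'
      linarith
    · have h1 := ED.dense_up n k hk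
      have h2 := ED.X_moore 2 n (by norm_num)
      have h1' : (3 : ℝ) * (ED.exd n k : ℝ) ≤ 8 * k + ((n ^ 2 / 4 : ℕ) : ℝ) + 2 * (ED.X 4 n : ℝ) := by
        exact_mod_cast h1
      have h3 : ((n ^ 2 / 4 : ℕ) : ℝ) ≤ (n : ℝ) ^ 2 / 4 := by
        refine Nat.cast_div_le.trans ?_
        push_cast
        exact le_refl _
      norm_num at h2
      rw [ee]
      linarith
end Pool.Agent.Results.MP_8264c5_co.AllK
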